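import Pool.Agent.Helper72.FX.StK

set_option autoImplicit false

namespace Pool.Agent.Helper73.FX

open Pool.Agent.Helper72.FX

section gen

variable {A : Type} [CommRing A] [IsNoetherianRing A] {P : MC A} {Λ : Type} [AddCommGroup Λ]

theorem finite_sub {Y : Type} [AddCommGroup Y] [Module A Y] (hY : Module.Finite A Y)
    (S : Submodule A Y) : Module.Finite A S := inferInstance

theorem af_range (χ : AF A P Λ) {X Y Z : Type} [AddCommGroup X] [Module A X]
    [AddCommGroup Y] [Module A Y] [AddCommGroup Z] [Module A Z] (f : X →ₗ[A] Y) (g : Y →ₗ[A] Z)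
    (h : Function.Exact f g) (hf : Module.Finite A Y) (hY : P Y) :
    χ.f Y = χ.f (LinearMap.range f) + χ.f (LinearMap.range g) := by
  refine χ.exact' (LinearMap.range f) Y (LinearMap.range g) (LinearMap.range f).subtype
    g.rangeRestrict hf hY (Submodule.injective_subtype _) ?_ g.surjective_rangeRestrict
  intro y
  constructor
  · intro hy
    have h1 : g y = 0 := congrArg Subtype.val hy
    obtain ⟨x, hx⟩ := (h y).1 h1
    exact ⟨⟨y, x, hx⟩, rfl⟩
  · rintro ⟨⟨y', x, hx⟩, rfl⟩
    apply Subtype.ext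
    exact (h _).2 ⟨x, hx⟩

end gen

theorem hSNK : StSNK := by
  intro A _ _ P hP Λ _ χ M1 M2 M3 N1 N2 N3 _ _ _ _ _ _ _ _ _ _ _ _ i p j q g1 g2 g3 hi hip hp hj
    hjq hq h1 h2 fK2 pK2 fK3 pK3 fC1 pC1 fC2 pC2
  have e1 : ∀ x, g2 (i x) = j (g1 x) := fun x => LinearMap.congr_fun h1 x
  have e2 : ∀ x, g3 (p x) = q (g2 x) := fun x => LinearMap.congr_fun h2 x
  -- the maps
  let α : LinearMap.ker g1 →ₗ[A] LinearMap.ker g2 := i.restrict (by
    intro x hx
    rw [LinearMap.mem_ker] at hx ⊢
    rw [e1, hx, map_zero])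
  let β : LinearMap.ker g2 →ₗ[A] LinearMap.ker g3 := p.restrict (by
    intro x hx
    rw [LinearMap.mem_ker] at hx ⊢
    rw [e2, hx, map_zero])
  let γ : (N1 ⧸ LinearMap.range g1) →ₗ[A] (N2 ⧸ LinearMap.range g2) :=
    Submodule.mapQ _ _ j (by
      rintro _ ⟨x, rfl⟩
      exact ⟨i x, e1 x⟩)
  let ε : (N2 ⧸ LinearMap.range g2) →ₗ[A] (N3 ⧸ LinearMap.range g3) :=
    Submodule.mapQ _ _ q (by
      rintro _ ⟨x, rfl⟩
      exact ⟨p x, e2 x⟩)
  let δ : LinearMap.ker g3 →ₗ[A] (N1 ⧸ LinearMap.range g1) :=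
    SnakeLemma.δ' g1 g2 g3 i p hip j q hjq h1.symm h2.symm (LinearMap.ker g3).subtype
      (LinearMap.exact_subtype_ker_map g3) (LinearMap.range g1).mkQ
      (LinearMap.exact_map_mkQ_range g1) hp hj
  have xβδ : Function.Exact β δ := by
    refine SnakeLemma.exact_δ'_right g1 g2 g3 i p hip j q hjq h1.symm h2.symm
      (LinearMap.ker g2).subtype (LinearMap.exact_subtype_ker_map g2) (LinearMap.ker g3).subtype
      (LinearMap.exact_subtype_ker_map g3) (LinearMap.range g1).mkQ
      (LinearMap.exact_map_mkQ_range g1) hp hj β ?_ (Submodule.injective_subtype _)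
    ext x
    rfl
  have xδγ : Function.Exact δ γ := by
    refine SnakeLemma.exact_δ'_left g1 g2 g3 i p hip j q hjq h1.symm h2.symm
      (LinearMap.ker g3).subtype
      (LinearMap.exact_subtype_ker_map g3) (LinearMap.range g1).mkQ
      (LinearMap.exact_map_mkQ_range g1) (LinearMap.range g2).mkQ
      (LinearMap.exact_map_mkQ_range g2) hp hj γ ?_ (Submodule.mkQ_surjective _)
    ext x
    rfl
  have iα : Function.Injective α := by
    intro x y hxy
    apply Subtype.ext
    exact hi (congrArg Subtype.val hxy)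
  have xαβ : Function.Exact α β := by
    intro y
    constructor
    · intro hy
      have hy' : p y.1 = 0 := congrArg Subtype.val hy
      obtain ⟨x, hx⟩ := (hip y.1).1 hy'
      have hx' : g1 x = 0 := by
        apply hj
        rw [← e1, hx, map_zero]
        exact y.2
      exact ⟨⟨x, hx'⟩, Subtype.ext hx⟩
    · rintro ⟨x, rfl⟩
      apply Subtype.ext
      exact hip.apply_apply_eq_zero x.1
  have sε : Function.Surjective ε := by
    intro z
    obtain ⟨z, rfl⟩ := Submodule.mkQ_surjective _ z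
    obtain ⟨y, rfl⟩ := hq z
    exact ⟨(LinearMap.range g2).mkQ y, rfl⟩
  have xγε : Function.Exact γ ε := by
    intro y
    constructor
    · intro hy
      obtain ⟨y, rfl⟩ := Submodule.mkQ_surjective _ y
      have hy' : (LinearMap.range g3).mkQ (q y) = 0 := hy
      rw [Submodule.mkQ_apply, Submodule.Quotient.mk_eq_zero] at hy'
      obtain ⟨z, hz⟩ := hy'
      obtain ⟨x, rfl⟩ := hp z
      have h3 : q (y - g2 x) = 0 := by rw [map_sub, ← hz, e2, sub_self]
      obtain ⟨n, hn⟩ := (hjq _).1 h3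
      refine ⟨(LinearMap.range g1).mkQ n, ?_⟩
      have h4 : γ ((LinearMap.range g1).mkQ n) = (LinearMap.range g2).mkQ (j n) := rfl
      rw [h4, hn, map_sub]
      have h5 : (LinearMap.range g2).mkQ (g2 x) = 0 := by
        rw [Submodule.mkQ_apply, Submodule.Quotient.mk_eq_zero]
        exact ⟨x, rfl⟩
      rw [h5, sub_zero]
    · rintro ⟨n, rfl⟩
      obtain ⟨n, rfl⟩ := Submodule.mkQ_surjective _ n
      have h4 : ε (γ ((LinearMap.range g1).mkQ n)) = (LinearMap.range g3).mkQ (q (j n)) := rfl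
      rw [h4, hjq.apply_apply_eq_zero, map_zero]
  -- the values
  have v2 := af_range χ α β xαβ fK2 pK2
  have v3 := af_range χ β δ xβδ fK3 pK3
  have w1 := af_range χ δ γ xδγ fC1 pC1
  have w2 := af_range χ γ ε xγε fC2 pC2
  have pα : P (LinearMap.range α) := hP.inj _ _ (LinearMap.range α).subtype
    (Submodule.injective_subtype _) pK2
  have u1 : χ.f (LinearMap.ker g1) = χ.f (LinearMap.range α) :=
    χ.equiv hP (LinearEquiv.ofInjective α iα) (finite_sub fK2 _) pα
  have pC3 : P (N3 ⧸ LinearMap.range g3) := hP.surj _ _ ε sε pC2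
  have fC3 : Module.Finite A (N3 ⧸ LinearMap.range g3) := Module.Finite.of_surjective ε sε
  have u3 : χ.f (LinearMap.range ε) = χ.f (N3 ⧸ LinearMap.range g3) := by
    refine χ.equiv hP ?_ fC3 pC3
    exact (LinearEquiv.ofEq _ _ (LinearMap.range_eq_top.2 sε)).trans Submodule.topEquiv
  rw [v2, w2, v3, w1, u1, u3]
  abel

end Pool.Agent.Helper73.FX
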