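import Pool.Agent.Helper84.FX.StX

set_option autoImplicit false

namespace Pool.Agent.Helper73.FX

open Set Pool.Agent.Helper84.FX Pool.Agent.Helper72.FX

/-- derivative in a direction from an expansion -/
theorem fd_line {E : Type} [NormedAddCommGroup E] [NormedSpace ℂ E] (f : E → ℂ) (x v : E)
    (P Q : ℂ) (h : DifferentiableAt ℂ f x)
    (hs : ∀ s : ℂ, f (x + s • v) = f x + s * P + s ^ 2 * Q) : fderiv ℂ f x v = P := by
  have h1 : HasDerivAt (fun s : ℂ => f (x + s • v)) (fderiv ℂ f x v) 0 :=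
    h.hasFDerivAt.hasLineDerivAt v
  have h2 : HasDerivAt (fun s : ℂ => f x + s * P + s ^ 2 * Q) P 0 := by
    have h3 := (((hasDerivAt_id' (0 : ℂ)).mul_const P).const_add (f x)).add
      ((hasDerivAt_pow 2 (0 : ℂ)).mul_const Q)
    exact h3.congr_deriv (by simp)
  have h4 : (fun s : ℂ => f (x + s • v)) = fun s : ℂ => f x + s * P + s ^ 2 * Q := funext hs
  rw [h4] at h1
  exact h1.unique h2

section smooth

variable {m : ℕ}

theorem cd_k {f : ℂ → ℂ → ℂ → ℂ}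
    (h : ContDiff ℂ (⊤ : ℕ∞) (fun q : ℂ × ℂ × ℂ => f q.1 q.2.1 q.2.2)) (i j k : Fin m) :
    ContDiff ℂ (⊤ : ℕ∞) (fun z : Fin m → ℂ => f (z i) (z j) (z k)) := by
  have h1 : ContDiff ℂ (⊤ : ℕ∞) (fun z : Fin m → ℂ => ((z i, z j, z k) : ℂ × ℂ × ℂ)) := by
    fun_prop
  exact h.comp h1

end smooth

theorem cd_E1 : ContDiff ℂ (⊤ : ℕ∞) (fun z : Fin 12 → ℂ => EE1 (pr10 z)) := by
  have h : (fun z : Fin 12 → ℂ => EE1 (pr10 z)) = fun z : Fin 12 → ℂ =>
      (2 * z 1 + z 2 * z 1 ^ 2 - z 0 ^ 2) - z 3 * z 4 - z 5 * z 6 := rfl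
  rw [h]
  fun_prop

theorem cd_E2 (hK : StKSM) : ContDiff ℂ (⊤ : ℕ∞) (fun z : Fin 12 → ℂ => EE2 (pr10 z)) := by
  obtain ⟨hx, hy, hz, hk, -⟩ := hK
  have h : (fun z : Fin 12 → ℂ => EE2 (pr10 z)) = fun z : Fin 12 → ℂ =>
      -(z 6 * z 4 * kappa (z 0) (z 1) (z 2)) + (z 8 - z 7) +
      z 5 * (z 2 * z 6 * kx (z 0) (z 1) (z 2) * z 8 + z 2 * z 6 * ky (z 0) (z 1) (z 2) * z 7 +
    z 2 * z 3 * z 7 * z 8 - 2 * z 6 * kz (z 0) (z 1) (z 2) * z 9 - z 3 * z 9 ^ 2) := rfl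
  rw [h]
  have hx' := cd_k hx (0 : Fin 12) 1 2
  have hy' := cd_k hy (0 : Fin 12) 1 2
  have hz' := cd_k hz (0 : Fin 12) 1 2
  have hk' := cd_k hk (0 : Fin 12) 1 2
  fun_prop

theorem FF_eq (z : Fin 12 → ℂ) :
    FF z = EE1 (pr10 z) * z 10 + EE2 (pr10 z) * z 11 - (z 5 - z 3) := rfl

theorem cd_FF (hK : StKSM) : ContDiff ℂ (⊤ : ℕ∞) (fun z : Fin 12 → ℂ => FF z) := by
  have h1 := cd_E1
  have h2 := cd_E2 hK
  have h : (fun z : Fin 12 → ℂ => FF z) = fun z : Fin 12 → ℂ =>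
    EE1 (pr10 z) * z 10 + EE2 (pr10 z) * z 11 - (z 5 - z 3) := rfl
  rw [h]
  fun_prop

theorem hTHH : StTMC → StKSM → StGR → StTHH := by
  intro hT hK hG U hU h0
  have c1 := cd_E1
  have c2 := cd_E2 hK
  have c3 := cd_FF hK
  have key := hT (Fin 12 → ℂ) (ℂ × ℂ) ℂ {z : Fin 12 → ℂ | z 2 ∈ U} (fun z => FF z)
    (fun z => (EE1 (pr10 z), EE2 (pr10 z))) (hU.preimage (continuous_apply 2))
    ((c3.restrict_scalars ℝ).of_le (by exact_mod_cast le_top)).contDiffOn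
    (((c1.prodMk c2).restrict_scalars ℝ).of_le (by exact_mod_cast le_top)).contDiffOn ?_
  · exact key
  intro x hx he hg
  have g1 : EE1 (pr10 x) = 0 := congrArg Prod.fst hg
  have g2 : EE2 (pr10 x) = 0 := congrArg Prod.snd hg
  have h53 : x 5 = x 3 := by
    have := FF_eq x
    rw [g1, g2] at this
    have h' : FF x = 0 := he
    rw [h'] at this
    linear_combination this
  have d1 : DifferentiableAt ℂ (fun z : Fin 12 → ℂ => EE1 (pr10 z)) x :=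
    (c1.differentiable (by simp)) x
  have d2 : DifferentiableAt ℂ (fun z : Fin 12 → ℂ => EE2 (pr10 z)) x :=
    (c2.differentiable (by simp)) x
  have d3 : DifferentiableAt ℂ (fun z : Fin 12 → ℂ => FF z) x :=
    (c3.differentiable (by simp)) x
  set L1 := fderiv ℂ (fun z : Fin 12 → ℂ => EE1 (pr10 z)) x with hL1
  set L2 := fderiv ℂ (fun z : Fin 12 → ℂ => EE2 (pr10 z)) x with hL2
  -- the derivative of FF
  have hF : HasFDerivAt (fun z : Fin 12 → ℂ => FF z)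
      ((x 10) • L1 + (x 11) • L2 -
        ((ContinuousLinearMap.proj 5 : (Fin 12 → ℂ) →L[ℂ] ℂ) - ContinuousLinearMap.proj 3)) x := by
    have p (i : Fin 12) : HasFDerivAt (fun z : Fin 12 → ℂ => z i)
        (ContinuousLinearMap.proj i : (Fin 12 → ℂ) →L[ℂ] ℂ) x := hasFDerivAt_apply i x
    have h := ((d1.hasFDerivAt.mul (p 10)).add (d2.hasFDerivAt.mul (p 11))).sub ((p 5).sub (p 3))
    have e : (fun z : Fin 12 → ℂ => FF z) = fun z : Fin 12 → ℂ =>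
      EE1 (pr10 z) * z 10 + EE2 (pr10 z) * z 11 - (z 5 - z 3) := rfl
    rw [e]
    refine h.congr_fderiv ?_
    rw [g1, g2]
    ext v
    simp [hL1, hL2]
  have hall : HasFDerivAt (fun z : Fin 12 → ℂ => (FF z, (EE1 (pr10 z), EE2 (pr10 z))))
      (((x 10) • L1 + (x 11) • L2 -
        ((ContinuousLinearMap.proj 5 : (Fin 12 → ℂ) →L[ℂ] ℂ) - ContinuousLinearMap.proj 3)).prod
        (L1.prod L2)) x := hF.prodMk (d1.hasFDerivAt.prodMk d2.hasFDerivAt)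
  have hR := hall.restrictScalars ℝ
  rw [hR.fderiv]
  -- the directions
  have E1e : ∀ z : Fin 12 → ℂ, EE1 (pr10 z) =
      (2 * z 1 + z 2 * z 1 ^ 2 - z 0 ^ 2) - z 3 * z 4 - z 5 * z 6 := fun z => rfl
  have E2e : ∀ z : Fin 12 → ℂ, EE2 (pr10 z) =
      -(z 6 * z 4 * kappa (z 0) (z 1) (z 2)) + (z 8 - z 7) +
      z 5 * (z 2 * z 6 * kx (z 0) (z 1) (z 2) * z 8 + z 2 * z 6 * ky (z 0) (z 1) (z 2) * z 7 +
    z 2 * z 3 * z 7 * z 8 - 2 * z 6 * kz (z 0) (z 1) (z 2) * z 9 - z 3 * z 9 ^ 2) := fun z => rfl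
  have sg : ∀ (j i : Fin 12) (s : ℂ), i ≠ j → (x + s • (Pi.single j 1 : Fin 12 → ℂ)) i = x i := by
    intro j i s hij
    simp [hij]
  have ss : ∀ (j : Fin 12) (s : ℂ), (x + s • (Pi.single j 1 : Fin 12 → ℂ)) j = x j + s := by
    intro j s
    simp
  have a0 : L1 (Pi.single 0 1) = -2 * x 0 := by
    refine fd_line _ _ _ _ (-1) d1 fun s => ?_
    simp only [E1e, ss, sg _ _ _ (show (1 : Fin 12) ≠ 0 by decide),
      sg _ _ _ (show (2 : Fin 12) ≠ 0 by decide), sg _ _ _ (show (3 : Fin 12) ≠ 0 by decide),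
      sg _ _ _ (show (4 : Fin 12) ≠ 0 by decide), sg _ _ _ (show (5 : Fin 12) ≠ 0 by decide),
      sg _ _ _ (show (6 : Fin 12) ≠ 0 by decide)]
    ring
  have a1 : L1 (Pi.single 1 1) = 2 * (1 + x 2 * x 1) := by
    refine fd_line _ _ _ _ (x 2) d1 fun s => ?_
    simp only [E1e, ss, sg _ _ _ (show (0 : Fin 12) ≠ 1 by decide),
      sg _ _ _ (show (2 : Fin 12) ≠ 1 by decide), sg _ _ _ (show (3 : Fin 12) ≠ 1 by decide),
      sg _ _ _ (show (4 : Fin 12) ≠ 1 by decide), sg _ _ _ (show (5 : Fin 12) ≠ 1 by decide),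
      sg _ _ _ (show (6 : Fin 12) ≠ 1 by decide)]
    ring
  have a4 : L1 (Pi.single 4 1) = -x 3 := by
    refine fd_line _ _ _ _ 0 d1 fun s => ?_
    simp only [E1e, ss, sg _ _ _ (show (0 : Fin 12) ≠ 4 by decide),
      sg _ _ _ (show (2 : Fin 12) ≠ 4 by decide), sg _ _ _ (show (3 : Fin 12) ≠ 4 by decide),
      sg _ _ _ (show (1 : Fin 12) ≠ 4 by decide), sg _ _ _ (show (5 : Fin 12) ≠ 4 by decide),
      sg _ _ _ (show (6 : Fin 12) ≠ 4 by decide)]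
    ring
  have aω : ∀ j : Fin 12, j = 7 ∨ j = 8 ∨ j = 9 → L1 (Pi.single j 1) = 0 := by
    intro j hj
    refine fd_line _ _ _ _ 0 d1 fun s => ?_
    have n0 : (0 : Fin 12) ≠ j := by rcases hj with rfl | rfl | rfl <;> decide
    have n1 : (1 : Fin 12) ≠ j := by rcases hj with rfl | rfl | rfl <;> decide
    have n2 : (2 : Fin 12) ≠ j := by rcases hj with rfl | rfl | rfl <;> decide
    have n3 : (3 : Fin 12) ≠ j := by rcases hj with rfl | rfl | rfl <;> decide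
    have n4 : (4 : Fin 12) ≠ j := by rcases hj with rfl | rfl | rfl <;> decide
    have n5 : (5 : Fin 12) ≠ j := by rcases hj with rfl | rfl | rfl <;> decide
    have n6 : (6 : Fin 12) ≠ j := by rcases hj with rfl | rfl | rfl <;> decide
    simp only [E1e, sg _ _ _ n0, sg _ _ _ n1, sg _ _ _ n2, sg _ _ _ n3, sg _ _ _ n4,
      sg _ _ _ n5, sg _ _ _ n6]
    ring
  have b7 : L2 (Pi.single 7 1) = -1 + x 5 * (x 2 * x 6 * ky (x 0) (x 1) (x 2) + x 2 * x 3 * x 8) := by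
    refine fd_line _ _ _ _ 0 d2 fun s => ?_
    simp only [E2e, ss, sg _ _ _ (show (0 : Fin 12) ≠ 7 by decide),
      sg _ _ _ (show (1 : Fin 12) ≠ 7 by decide),
      sg _ _ _ (show (2 : Fin 12) ≠ 7 by decide), sg _ _ _ (show (3 : Fin 12) ≠ 7 by decide),
      sg _ _ _ (show (4 : Fin 12) ≠ 7 by decide), sg _ _ _ (show (5 : Fin 12) ≠ 7 by decide),
      sg _ _ _ (show (6 : Fin 12) ≠ 7 by decide), sg _ _ _ (show (8 : Fin 12) ≠ 7 by decide),
      sg _ _ _ (show (9 : Fin 12) ≠ 7 by decide)]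
    generalize kx (x 0) (x 1) (x 2) = p1
    generalize ky (x 0) (x 1) (x 2) = p2
    generalize kz (x 0) (x 1) (x 2) = p3
    generalize kappa (x 0) (x 1) (x 2) = p4
    ring
  have b8 : L2 (Pi.single 8 1) = 1 + x 5 * (x 2 * x 6 * kx (x 0) (x 1) (x 2) + x 2 * x 3 * x 7) := by
    refine fd_line _ _ _ _ 0 d2 fun s => ?_
    simp only [E2e, ss, sg _ _ _ (show (0 : Fin 12) ≠ 8 by decide),
      sg _ _ _ (show (1 : Fin 12) ≠ 8 by decide),
      sg _ _ _ (show (2 : Fin 12) ≠ 8 by decide), sg _ _ _ (show (3 : Fin 12) ≠ 8 by decide),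
      sg _ _ _ (show (4 : Fin 12) ≠ 8 by decide), sg _ _ _ (show (5 : Fin 12) ≠ 8 by decide),
      sg _ _ _ (show (6 : Fin 12) ≠ 8 by decide), sg _ _ _ (show (7 : Fin 12) ≠ 8 by decide),
      sg _ _ _ (show (9 : Fin 12) ≠ 8 by decide)]
    generalize kx (x 0) (x 1) (x 2) = p1
    generalize ky (x 0) (x 1) (x 2) = p2
    generalize kz (x 0) (x 1) (x 2) = p3
    generalize kappa (x 0) (x 1) (x 2) = p4
    ring
  have b9 : L2 (Pi.single 9 1) = -2 * (x 5 * (x 6 * kz (x 0) (x 1) (x 2) + x 3 * x 9)) := by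
    refine fd_line _ _ _ _ (-(x 5 * x 3)) d2 fun s => ?_
    simp only [E2e, ss, sg _ _ _ (show (0 : Fin 12) ≠ 9 by decide),
      sg _ _ _ (show (1 : Fin 12) ≠ 9 by decide),
      sg _ _ _ (show (2 : Fin 12) ≠ 9 by decide), sg _ _ _ (show (3 : Fin 12) ≠ 9 by decide),
      sg _ _ _ (show (4 : Fin 12) ≠ 9 by decide), sg _ _ _ (show (5 : Fin 12) ≠ 9 by decide),
      sg _ _ _ (show (6 : Fin 12) ≠ 9 by decide), sg _ _ _ (show (8 : Fin 12) ≠ 9 by decide),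
      sg _ _ _ (show (7 : Fin 12) ≠ 9 by decide)]
    generalize kx (x 0) (x 1) (x 2) = p1
    generalize ky (x 0) (x 1) (x 2) = p2
    generalize kz (x 0) (x 1) (x 2) = p3
    generalize kappa (x 0) (x 1) (x 2) = p4
    ring
  -- choice of the directions
  have ht : x 2 ≠ 0 := fun h => h0 (h ▸ hx)
  obtain ⟨j, hj1, hj5, hj3⟩ : ∃ j : Fin 12, L1 (Pi.single j 1) ≠ 0 ∧ (5 : Fin 12) ≠ j ∧
      (3 : Fin 12) ≠ j := by
    by_cases ha : x 0 = 0
    · by_cases hb : 1 + x 2 * x 1 = 0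
      · refine ⟨4, ?_, by decide, by decide⟩
        rw [a4]
        intro h3
        have h3' : x 3 = 0 := neg_eq_zero.1 h3
        have hn := hG.1 (x 0) (x 1) (x 2) ht ha hb
        apply hn
        have h4 := E1e x
        rw [g1, h53, h3'] at h4
        have h5 : nu (x 0) (x 1) (x 2) = 2 * x 1 + x 2 * x 1 ^ 2 - x 0 ^ 2 := rfl
        rw [h5]
        linear_combination (-1 : ℂ) * h4
      · refine ⟨1, ?_, by decide, by decide⟩
        rw [a1]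
        exact mul_ne_zero two_ne_zero hb
    · refine ⟨0, ?_, by decide, by decide⟩
      rw [a0]
      exact mul_ne_zero (by norm_num) ha
  obtain ⟨k, hk2, hk1, hk5, hk3⟩ : ∃ k : Fin 12, L2 (Pi.single k 1) ≠ 0 ∧
      L1 (Pi.single k 1) = 0 ∧ (5 : Fin 12) ≠ k ∧ (3 : Fin 12) ≠ k := by
    have hW : pr10 x ∈ WW U := ⟨hx, g1, g2⟩
    rcases hG.2 U (pr10 x) hW with h | h | h
    · refine ⟨7, ?_, aω 7 (by simp), by decide, by decide⟩
      rw [b7]
      exact h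
    · refine ⟨8, ?_, aω 8 (by simp), by decide, by decide⟩
      rw [b8]
      exact h
    · refine ⟨9, ?_, aω 9 (by simp), by decide, by decide⟩
      rw [b9]
      exact mul_ne_zero (by norm_num) h
  rintro ⟨α, β, γ⟩
  set u : ℂ := x 10 * β + x 11 * γ - α with hu
  set v0 : Fin 12 → ℂ := u • Pi.single 5 1 with hv0
  set v1 : Fin 12 → ℂ := v0 + ((β - L1 v0) / L1 (Pi.single j 1)) • Pi.single j 1 with hv1
  set v2 : Fin 12 → ℂ := v1 + ((γ - L2 v1) / L2 (Pi.single k 1)) • Pi.single k 1 with hv2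
  clear_value v2 v1 v0
  have e1 : L1 v1 = β := by
    rw [hv1, map_add, map_smul, smul_eq_mul, div_mul_cancel₀ _ hj1]
    ring
  have e2 : L1 v2 = β := by
    rw [hv2, map_add, map_smul, hk1, smul_zero, add_zero, e1]
  have e3 : L2 v2 = γ := by
    rw [hv2, map_add, map_smul, smul_eq_mul, div_mul_cancel₀ _ hk2]
    ring
  have e4 : v2 5 - v2 3 = u := by
    have q5 : v2 5 = u := by
      simp [hv2, hv1, hv0, hj5, hk5]
    have q3 : v2 3 = 0 := by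
      simp [hv2, hv1, hv0, hj3, hk3]
    rw [q5, q3, sub_zero]
  refine ⟨v2, ?_⟩
  have e5 : x 10 * L1 v2 + x 11 * L2 v2 - (v2 5 - v2 3) = α := by
    rw [e2, e3, e4, hu]
    ring
  have e6 : ((((x 10) • L1 + (x 11) • L2 -
        ((ContinuousLinearMap.proj 5 : (Fin 12 → ℂ) →L[ℂ] ℂ) - ContinuousLinearMap.proj 3)).prod
        (L1.prod L2)) : (Fin 12 → ℂ) →L[ℂ] ℂ × ℂ × ℂ) v2 =
      (x 10 * L1 v2 + x 11 * L2 v2 - (v2 5 - v2 3), L1 v2, L2 v2) := rfl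
  have e7 : (ContinuousLinearMap.restrictScalars ℝ ((((x 10) • L1 + (x 11) • L2 -
        ((ContinuousLinearMap.proj 5 : (Fin 12 → ℂ) →L[ℂ] ℂ) - ContinuousLinearMap.proj 3)).prod
        (L1.prod L2)) : (Fin 12 → ℂ) →L[ℂ] ℂ × ℂ × ℂ)) v2 =
      (x 10 * L1 v2 + x 11 * L2 v2 - (v2 5 - v2 3), L1 v2, L2 v2) := rfl
  rw [e7, e5, e2, e3]

end Pool.Agent.Helper73.FX
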